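import Mathlib
import Pool.Agent.Y353.CH.Irr
import Pool.Agent.Y353.CH.Val
import Pool.Agent.Y353.CH.First

set_option autoImplicit false

open Filter Topology

namespace Pool.Agent.Results.MP_e8c887_nt.QuadraticEveryCharacteristic

/-- The places of a function field `K` over `k`: the normalised discrete valuations of `K`
(written multiplicatively, with value group all of `ℤ`) that are trivial on `k`. -/
def Place (k K : Type) [Field k] [Field K] [Algebra (RatFunc k) K] : Type :=
  {v : Valuation K (WithZero (Multiplicative ℤ)) //
    Function.Surjective v ∧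
      ∀ c : k, c ≠ 0 → v (algebraMap (RatFunc k) K (RatFunc.C c)) = 1}

/-- The Weil height of the point `[x 0 : x 1]` of the projective line over a function field `K`
over an algebraically closed field `k` (so that all places have degree one):
the sum over all places of `log max (v (x 0), v (x 1))`. -/
noncomputable def weilHeight (k K : Type) [Field k] [Field K] [Algebra (RatFunc k) K]
    (x : Fin 2 → K) : ℝ :=
  ∑ᶠ v : Place k K, ((WithZero.log (max (v.1 (x 0)) (v.1 (x 1))) : ℤ) : ℝ)

/-- The action of the pair of binary forms `G 0, G 1` on homogeneous coordinates. -/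
noncomputable def act {K : Type} [Field K] (G : Fin 2 → MvPolynomial (Fin 2) K)
    (x : Fin 2 → K) : Fin 2 → K :=
  fun i => MvPolynomial.eval x (G i)

/-- The quadratic map `y ↦ t y + s - n / y` over the rational function field `k(t)`, as a pair of
binary quadratic forms: `[x : z] ↦ [t x² + s x z - n z² : x z]`. -/
noncomputable def quad (k : Type) [Field k] (s n : k) :
    Fin 2 → MvPolynomial (Fin 2) (RatFunc k) :=
  ![MvPolynomial.C RatFunc.X * MvPolynomial.X 0 ^ 2 +
      MvPolynomial.C (RatFunc.C s) * (MvPolynomial.X 0 * MvPolynomial.X 1) -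
      MvPolynomial.C (RatFunc.C n) * MvPolynomial.X 1 ^ 2,
    MvPolynomial.X 0 * MvPolynomial.X 1]

/-- The point `[x : z]` of the projective line over `k(t)` given by polynomials `x, z` with
coefficients in a subfield `F` of `k`. -/
noncomputable def point {F : Type} [Field F] (k : Type) [Field k] [Algebra F k]
    (x z : Polynomial F) : Fin 2 → RatFunc k :=
  ![algebraMap (Polynomial k) (RatFunc k) (x.map (algebraMap F k)),
    algebraMap (Polynomial k) (RatFunc k) (z.map (algebraMap F k))]

open Pool.Agent.Y353.CH

lemma quad_homog (k : Type) [Field k] (s n : k) (i : Fin 2) :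
    (quad k s n i).IsHomogeneous 2 := by
  have hX0 : (MvPolynomial.X 0 : MvPolynomial (Fin 2) (RatFunc k)).IsHomogeneous 1 :=
    MvPolynomial.isHomogeneous_X _ _
  have hX1 : (MvPolynomial.X 1 : MvPolynomial (Fin 2) (RatFunc k)).IsHomogeneous 1 :=
    MvPolynomial.isHomogeneous_X _ _
  have hC : ∀ a : RatFunc k, (MvPolynomial.C a : MvPolynomial (Fin 2) (RatFunc k)).IsHomogeneous 0 :=
    fun a => MvPolynomial.isHomogeneous_C _ _
  fin_cases i
  · have := (((hC RatFunc.X).mul (hX0.pow 2)).add ((hC (RatFunc.C s)).mul (hX0.mul hX1))).sub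
      ((hC (RatFunc.C n)).mul (hX1.pow 2))
    simpa [quad] using this
  · have := hX0.mul hX1
    simpa [quad] using this

lemma quad_nonsing (k : Type) [Field k] (s n : k) (hn : n ≠ 0)
    (y : Fin 2 → AlgebraicClosure (RatFunc k))
    (h : ∀ i, MvPolynomial.aeval y (quad k s n i) = 0) : y = 0 := by
  have h0 := h 0
  have h1 := h 1
  simp only [quad, Matrix.cons_val_zero, Matrix.cons_val_one, map_add, map_sub, map_mul, map_pow,
    MvPolynomial.aeval_X, MvPolynomial.aeval_C] at h0 h1
  have hX : algebraMap (RatFunc k) (AlgebraicClosure (RatFunc k)) RatFunc.X ≠ 0 := by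
    rw [Ne, FaithfulSMul.algebraMap_eq_zero_iff]
    exact RatFunc.X_ne_zero
  have hN : algebraMap (RatFunc k) (AlgebraicClosure (RatFunc k)) (RatFunc.C n) ≠ 0 := by
    rw [Ne, FaithfulSMul.algebraMap_eq_zero_iff]
    intro h'
    exact hn (by simpa using h')
  rcases mul_eq_zero.mp h1 with hy | hy
  · have hz : y 1 = 0 := by
      rw [hy] at h0
      have : algebraMap (RatFunc k) (AlgebraicClosure (RatFunc k)) (RatFunc.C n) * y 1 ^ 2 = 0 := by
        linear_combination (-1 : AlgebraicClosure (RatFunc k)) * h0
      rcases mul_eq_zero.mp this with h' | h'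
      · exact absurd h' hN
      · exact pow_eq_zero_iff (by norm_num) |>.mp h'
    funext i
    fin_cases i
    · exact hy
    · exact hz
  · have hz : y 0 = 0 := by
      rw [hy] at h0
      have : algebraMap (RatFunc k) (AlgebraicClosure (RatFunc k)) RatFunc.X * y 0 ^ 2 = 0 := by
        linear_combination h0
      rcases mul_eq_zero.mp this with h' | h'
      · exact absurd h' hX
      · exact pow_eq_zero_iff (by norm_num) |>.mp h'
    funext i
    fin_cases i
    · exact hz
    · exact hy

section

variable {F : Type} [Field F] (k : Type) [Field k] [Algebra F k] (s n : F)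

lemma act_vec (e : ℕ) (P : Polynomial F × Polynomial F) :
    act (quad k (algebraMap F k s) (algebraMap F k n)) (vec k e P) =
      vec k (2 * e + phi P) (step s n P) := by
  obtain ⟨e1, e2⟩ := step_eqs s n P
  have f1 : Polynomial.X ^ (2 * e + phi P) * (step s n P).1 =
      Polynomial.X * (Polynomial.X ^ e * P.1) ^ 2 +
        Polynomial.C s * ((Polynomial.X ^ e * P.1) * (Polynomial.X ^ e * P.2)) -
        Polynomial.C n * (Polynomial.X ^ e * P.2) ^ 2 := by
    rw [pow_add, mul_assoc, ← e1]
    simp only [num, numF]
    ring
  have f2 : Polynomial.X ^ (2 * e + phi P) * (step s n P).2 =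
      (Polynomial.X ^ e * P.1) * (Polynomial.X ^ e * P.2) := by
    rw [pow_add, mul_assoc, ← e2]
    simp only [den, denF]
    ring
  funext i
  fin_cases i
  · have h := congrArg (emb (F := F) (k := k)) f1
    rw [map_sub, map_add, map_mul emb Polynomial.X, map_mul emb (Polynomial.C s),
      map_mul emb (Polynomial.C n), map_pow, map_pow, map_mul emb (Polynomial.X ^ e * P.1),
      emb_X, emb_C, emb_C] at h
    show MvPolynomial.eval (vec k e P) (quad k (algebraMap F k s) (algebraMap F k n) 0) =
      emb (Polynomial.X ^ (2 * e + phi P) * (step s n P).1)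
    rw [h]
    simp [quad, vec]
  · have h := congrArg (emb (F := F) (k := k)) f2
    rw [map_mul emb (Polynomial.X ^ e * P.1)] at h
    show MvPolynomial.eval (vec k e P) (quad k (algebraMap F k s) (algebraMap F k n) 1) =
      emb (Polynomial.X ^ (2 * e + phi P) * (step s n P).2)
    rw [h]
    simp [quad, vec]

/-- the exponents of the common factors -/
noncomputable def ee (P : Polynomial F × Polynomial F) (e : ℕ) : ℕ → ℕ
  | 0 => e
  | m + 1 => 2 * ee P e m + phi (orb s n P m)

lemma iterate_vec (e : ℕ) (P : Polynomial F × Polynomial F) (m : ℕ) :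
    (act (quad k (algebraMap F k s) (algebraMap F k n)))^[m] (vec k e P) =
      vec k (ee s n P e m) (orb s n P m) := by
  induction m with
  | zero => rfl
  | succ m ih =>
    rw [Function.iterate_succ_apply', ih, act_vec, orb_succ]
    rfl

lemma point_eq (x z : Polynomial F) : point k x z = vec k 0 (x, z) := by
  funext i
  fin_cases i
  · simp [point, vec, emb_apply]
  · simp [point, vec, emb_apply]

end

/-- **Theorem.** For every finite field `F` there are `s, n ∈ F`, `n ≠ 0`, such that for every
algebraically closed field `k` containing `F` the quadratic map `y ↦ t y + s - n / y` over `k(t)`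
has the following property: the canonical height of every point `y = x / z` of `F(t)` other than
zero (and infinity) is irrational. -/
theorem result (F : Type) [Field F] [Finite F] :
    ∃ s n : F, n ≠ 0 ∧ ∀ (k : Type) [Field k] [IsAlgClosed k] [Algebra F k],
      (∀ i, (quad k (algebraMap F k s) (algebraMap F k n) i).IsHomogeneous 2) ∧
      (∀ y : Fin 2 → AlgebraicClosure (RatFunc k),
        (∀ i, MvPolynomial.aeval y (quad k (algebraMap F k s) (algebraMap F k n) i) = 0) →
          y = 0) ∧
      ∀ x z : Polynomial F, IsCoprime x z → x ≠ 0 → z ≠ 0 →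
        ∃ L : ℝ, Tendsto (fun m : ℕ => weilHeight k (RatFunc k)
          ((act (quad k (algebraMap F k s) (algebraMap F k n)))^[m] (point k x z)) / 2 ^ m)
          atTop (𝓝 L) ∧ Irrational L := by
  have : Fintype F := Fintype.ofFinite F
  obtain ⟨s, n, hn, hM⟩ := exists_transitive F
  refine ⟨s, n, hn, ?_⟩
  intro k _ _ _
  refine ⟨fun i => quad_homog k _ _ i, fun y hy => quad_nonsing k _ _ (by simpa using hn) y hy, ?_⟩
  intro x z hxz hx hz
  set P : Polynomial F × Polynomial F := step s n (x, z) with hPdef
  have hPc : IsCoprime P.1 P.2 := step_coprime s n hn (x, z) hxz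
  have hPG : Good P := good_first s n hn (x, z) hx hz
  obtain ⟨L, hL, hirr⟩ := exists_limit_irrational
    (fun m => (orb s n P m).1.natDegree + 1) (fun m => phi (orb s n P m))
    (fun m => phi_le _)
    (by
      intro m
      have h1 := (good_step s n _ (good_orb s n P hPG m).1).2.1
      rw [← orb_succ] at h1
      show (orb s n P (m + 1)).1.natDegree + 1 + phi (orb s n P m) =
        2 * ((orb s n P m).1.natDegree + 1)
      omega)
    (fun m => visits s n hM hn P hPc m)
    (fun m m' h => aperiodic s n hM hn P hPc hPG m m' h)
  have hh : ∀ m, weilHeight k (RatFunc k)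
      ((act (quad k (algebraMap F k s) (algebraMap F k n)))^[m + 1] (point k x z)) =
      (orb s n P m).1.natDegree := by
    intro m
    rw [Function.iterate_succ_apply, point_eq, act_vec, iterate_vec]
    have h1 := height_vec (F := F) (k := k)
      (ee s n P (2 * 0 + phi (x, z)) m) (orb s n P m) (orb_coprime s n hn P hPc m)
      (good_orb s n P hPG m).1
    exact h1
  refine ⟨L / 2, ?_, ?_⟩
  · rw [← tendsto_add_atTop_iff_nat 1]
    have hpow : Tendsto (fun m : ℕ => (1 : ℝ) / 2 ^ m) atTop (𝓝 0) := by
      have := tendsto_pow_atTop_nhds_zero_of_lt_one (r := (1 / 2 : ℝ)) (by norm_num) (by norm_num)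
      simpa [one_div_pow] using this
    have h2 := (hL.sub hpow).div_const 2
    rw [sub_zero] at h2
    refine h2.congr ?_
    intro m
    rw [hh]
    have h3 : (2 : ℝ) ^ m ≠ 0 := by positivity
    rw [pow_succ]
    push_cast
    field_simp
    ring
  · have := hirr.div_ratCast (q := 2) (by norm_num)
    simpa using this

end Pool.Agent.Results.MP_e8c887_nt.QuadraticEveryCharacteristic
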